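import Pool.Agent.KPC.Stmt
import Pool.Agent.KPC.IFinal
import Pool.Agent.KPC.FiniteBlock
import Pool.Agent.KPC.ISanity

/-!
# Compact perturbations of pairs compatible with the Kalton–Peck map: negative answer

`KalPeck.L2` is the real Hilbert space `ℓ₂`, `KalPeck.kp z i = z i * log (|z i| / ‖z‖)` is the
Kalton–Peck map, `KalPeck.Z` is the Kalton–Peck space of all pairs `(y, z)` of a real sequence `y`
and `z ∈ ℓ₂` with `y - kp z ∈ ℓ₂`, with the quasi-norm `KalPeck.qn (y, z) = ‖y - kp z‖ + ‖z‖`
(finitely supported pairs are dense in it, `KPC.Z2_dense`, and it is complete,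
`KPC.Z2_complete`). `KalPeck.Compatible T U` says that there is a bounded operator `β` on `Z₂`
with `β (y, 0) = (T y, 0)` for all `y ∈ ℓ₂` and `q β = U q`, `q (y, z) = z`.
`KalPeck.Op` is the type of bounded operators on `ℓ₂`, `KalPeck.add T K = T + K`, and
`KalPeck.Compact K` is Mathlib's `IsCompactOperator`.
-/

namespace Pool.Agent.Results.MP_4b9f26_an.NoCompactPerturbation

open KalPeck

/-- There are operators `T, U` on `ℓ₂` such that `(T, U)` is compatible with the Kalton–Peck map,
but `(T + K, T + K)` is compatible with it for no compact operator `K`. -/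
theorem result : ∃ T U : Op, Compatible T U ∧
    ∀ K : Op, Compact K → ¬ Compatible (add T K) (add T K) :=
  KPC.final_of_blocks ⟨100, by norm_num, fun R η hη => KPC.finite_block R η hη⟩

end Pool.Agent.Results.MP_4b9f26_an.NoCompactPerturbation
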